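import Mathlib
import Pool.Agent.Y649.DG.Main
import Pool.Agent.Y649.DG.Incl
import Pool.Agent.Q330.DG.OM

/-!
# OMV over the field with two elements: formulas with determinant gates

The decision version of OMV over `ZMod 2`: given an `n × n` matrix `M` and `n` pairs `(u_i, v_i)` of
vectors, is some product `u_iᵀ M v_i` equal to one? The items of the input are the matrix and the
pairs; so everything that can be computed from the matrix alone is free.

A formula (`Fml`) is built from real constants, arbitrary real functions of one item, and arbitrary real
functions of `w` words, where each word is a function of one item with `q` values, by the gates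

* `pos`: is the value positive? (`1` or `0`),
* `sym`: any fan-in, any real function of the number of positive inputs,
* `det`: the determinant of a real matrix of any order whose entries are formulas (sums and products
  are determinants of order two),
* `reg`: is the matrix over an arbitrary field `K`, of any order, whose entry `(a, b)` is `c' a b` or
  `c a b`, according to whether the formula `(a, b)` is positive or not, regular? (`1` or `0`).

The size is the number of the leaves which are not constants, plus the number of wires which lead to
gates `sym`. So constants and the orders of the matrices are free. The formula accepts if its value is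
positive. Such formulas contain (without increase in size) the nondeterministic networks whose edges
are guarded by real formulas, and these may be nested.

We show that random formulas of size at most `s` with error probability at most `1 / 3` need
`n ^ 4 ≤ 12 * 10 ^ 6 (c + log₂ n) w ^ 3 s ^ 2` if the words have `c` bits, that is, size of order
`n ^ 2 / √(c + log n)`, for an input which consists of `n + 1` items. Note that the formulas may
contain determinants and ranks of matrices over `ZMod 2` (and over any other field).

Proof. The pair `(u_i, v_i)` can ask for each of the `n ^ 2` entries of the matrix
(`Pool.Agent.Y638.RF.Xor.asks`). If `r` leaves see an item, then the other parts of the formula enter a determinant with `r` live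
entries only through `O (r ^ 2)` numbers (Schur complement), so `2 ^ O (r ^ 2 log n)` functions of the
item arise when the other items are fixed (Warren's theorem, and the theorem of Rónyai, Babai and
Ganapathy for the fields `K`; `Pool.Agent.Y649.DG.bound`).
-/

set_option autoImplicit false

namespace Pool.Agent.Results.MP_0f1f76_lc.DeterminantGates

open Pool.Agent.TH697.Form (IsProb)
open Pool.Agent.TH697.Row (ApproximatesOn)
open Pool.Agent.Y638.RF.Xor (Item product)
open Pool.Agent.Y638.RF (Net)
open Pool.Agent.Y649.DG (Fml)

theorem result :
    (∀ n c w : ℕ, 32 ≤ n → 1 ≤ c → 1 ≤ w →
      ∀ (Ω : Type) [Fintype Ω] (μ : Ω → ℝ), IsProb μ →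
      ∀ (s : ℕ) (F : Ω → Fml (Option (Fin n)) (Item n) w (2 ^ c)),
        (∀ ω, (F ω).size ≤ s) →
        ApproximatesOn μ (fun ω => (F ω).accepts) (fun _ => True) (product n) →
        (n : ℝ) ^ 4 ≤ 12000000 * (c + Real.logb 2 n) * w ^ 3 * s ^ 2) ∧
    (∀ (ι : Type) (D : ι → Type) (w q : ℕ) (N : Net ι D w q),
      ∃ F : Fml ι D w q, F.size ≤ N.size ∧ ∀ x, F.accepts x = N.eval x) :=
  ⟨fun n c w hn hc hw Ω _ μ hμ s F hs hF =>
    Pool.Agent.Q330.DG.OM.bound_of Pool.Agent.Y649.DG.bound hn hc hw
      Pool.Agent.Y638.RF.Xor.asks μ hμ s F hs hF,
    fun _ _ _ _ N => Pool.Agent.Y649.DG.exists_of_net N⟩

end Pool.Agent.Results.MP_0f1f76_lc.DeterminantGates
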