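import Pool.Agent.Q330.FD.Omv

/-!
# OMV over the field with two elements needs many reads of the matrix or much memory

The decision version of OMV over `ZMod 2`: given an `n × n` matrix `M` and `n` pairs `(u_i, v_i)` of
vectors, are all products `u_iᵀ M v_i` zero?

We consider Boolean circuits with AND gates of fan-in two, OR gates of any fan-in and negations at
the inputs, whose inputs are the bits of the matrix and of the vectors. Such a
circuit accepts if and only if it has a proof tree all of whose leaves are true literals; the formal
degree in an input bit is the largest number of leaves with this bit, that is, the number of times
this bit is read. Nondeterministic, in particular deterministic, branching programs are such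
circuits (the logarithm of the size is the memory, and a bit which is read at most `k` times on every
path has degree at most `k`), and so are programs with a stack; a proof tree of a circuit may even
read any part of the input again and again in its branches. So a deterministic program which decides
whether some product is one (or which computes all products) gives such a circuit.

We show that the size is `2 ^ Ω (n)` if the degrees in the `n ^ 2` entries of the matrix sum up to
`O (n ^ 2)`, while all the coordinates of the vectors may be read as often as one likes. So algorithms
of this kind with a memory of `o (n)` bits must read the entries of the matrix more than a constant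
number of times on average, and with a memory of `O (log n)` bits they must read them `Ω (log n)`
times. With a memory of `n + O (log n)` bits, in contrast, it is enough to read each entry of the
matrix once (keep the `n` partial sums). The lower bound holds for each row separately: it is enough
that the degrees in the entries of one row sum up to at most `k n`; and then it remains true for
circuits with one-sided randomness.

The hard instances: all `u_i` are equal to the unit vector of the row, the other rows are zero, and
each `v_i` is the sum of two unit vectors, which asks whether the two entries of a pair of a hidden
matching are equal.
-/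

set_option autoImplicit false

namespace Pool.Agent.Results.MP_0f1f76_lc.FormalDegree

open Pool.Agent.W896.RK Pool.Agent.W896.FD Pool.Agent.Q330.FD.Omv

/-- The bits `mat a b` are the entries of the matrix.

1. Let `a` be a row and `U r` (`r` in a finite nonempty set) circuits none of which accepts an input
for which some product is one, such that every input all products of which are zero is accepted by at
least a `2 ^ (- ⌊n / 2 ^ (60 (k + 1))⌋)` fraction of them. If in each `U r` the formal degrees in the
entries of the row `a` sum up to at most `k n`, then some `U r` has `g` gates with
`n ≤ 2 ^ (60 (k + 1)) (⌊log₂ g⌋ + 1)`.

2. If a circuit accepts exactly the inputs all products of which are zero, and its formal degrees in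
all entries of the matrix sum up to at most `k n ^ 2`, then it has `g` gates with
`n ≤ 2 ^ (60 (k + 1)) (⌊log₂ g⌋ + 1)`. -/
theorem result (k n : ℕ) :
    (∀ (a : Fin n) (R : Type) [Fintype R] [Nonempty R] (U : R → Circ (Bit n)),
      (∀ r x, (U r).Val x (U r).out → AllZero x) →
      (∀ x, AllZero x →
        Nat.card R ≤ 2 ^ (n / 2 ^ (60 * (k + 1))) * Nat.card {r // (U r).Val x (U r).out}) →
      (∀ r, ∃ d : (U r).G → Bit n → ℕ, IsDeg (U r) id d ∧
        ∑ b, d (U r).out (.mat a b) ≤ k * n) →
      ∃ r, n ≤ 2 ^ (60 * (k + 1)) * (Nat.log 2 (Fintype.card (U r).G) + 1)) ∧
    ∀ U : Circ (Bit n),
      (∀ x, U.Val x U.out ↔ AllZero x) →
      (∃ d : U.G → Bit n → ℕ, IsDeg U id d ∧ ∑ a, ∑ b, d U.out (.mat a b) ≤ k * n ^ 2) →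
      n ≤ 2 ^ (60 * (k + 1)) * (Nat.log 2 (Fintype.card U.G) + 1) :=
  ⟨fun a R _ _ U hU hc hd => omv_row k n a R U hU hc hd,
    fun U hU hd => omv_total k n U hU hd⟩

end Pool.Agent.Results.MP_0f1f76_lc.FormalDegree
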