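import Mathlib
import Pool.Agent.Q330.LS.OM

/-!
# OMV over the field with two elements: circuits in which shared gates depend on few pairs

The decision version of OMV over `ZMod 2`: given an `n × n` matrix `M` and `n` pairs `(u_i, v_i)` of
vectors, is some product `u_iᵀ M v_i` equal to one? The items of the input are the matrix and the
pairs; so everything that can be computed from the matrix alone is free.

A circuit over the full binary basis (in particular with XOR gates) is written as a sequence of
formulas, one for each gate whose value is used more than once (a shared gate) and one for the
output. The leaves are tests of the input, that is, arbitrary Boolean functions of `w` words of `c`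
bits, where each word is an arbitrary function of one item. There may be any number of shared gates
and references to them. A shared gate is heavy (for `d`) if it depends, directly or by other shared
gates, on more than `d` of the pairs; its dependence on the matrix does not matter.

For random circuits with error probability at most `1 / 3` and for all `d`:
`n ^ 3 ≤ 100 (c w ^ 2 leaves + d (references + shared gates) +
n (references to heavy gates + heavy gates))` (expected numbers). So a circuit in which every shared
gate depends on at most `d` pairs has size `n ^ 3 / O(c w ^ 2 + d)`.

Proof. The pair `(u_i, v_i)` can ask for each of the `n ^ 2` entries of the matrix. If the other items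
are fixed, the circuit has at most `2 ^ (1 + s) 16 ^ r (16 q ^ (w - 1)) ^ l` subfunctions, where `s` is
the number of shared gates that depend on the pair, `r` is the number of references to them, and `l`
is the number of leaves that see the pair (`Pool.Agent.TH272.Shr.circuit_heavy`).
-/

set_option autoImplicit false

namespace Pool.Agent.Results.MP_0f1f76_lc.LocalSharing

open Pool.Agent.TH697.Form (IsProb)
open Pool.Agent.TH697.Row (ApproximatesOn)
open Pool.Agent.Y638.RF.Xor (Item product)
open Pool.Agent.TH272.Shr (Circuit mean)
open Pool.Agent.Q330.LS.OM (pairs)

theorem result : ∀ n c w d : ℕ, 5 ≤ n → 1 ≤ c → 1 ≤ w →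
    ∀ (Ω : Type) [Fintype Ω] (μ : Ω → ℝ), IsProb μ →
    ∀ C : Ω → Circuit (Option (Fin n)) (Item n) w (2 ^ c),
      ApproximatesOn μ (fun ω => (C ω).eval) (fun _ => True) (product n) →
        (n : ℝ) ^ 3 ≤ 100 * (c * w ^ 2 * mean μ (fun ω => (C ω).leaves) +
          (d * (mean μ (fun ω => (C ω).refs) + mean μ (fun ω => (C ω).shared)) +
            n * (mean μ (fun ω => (C ω).heavyRefs (pairs n) d) +
              mean μ (fun ω => (C ω).heavyGates (pairs n) d)))) :=
  fun _ _ _ d hn hc hw _ _ μ hμ C hC => Pool.Agent.Q330.LS.OM.bound_of hn hc hw
    Pool.Agent.Q330.LS.OM.queries_xor μ hμ C hC d

end Pool.Agent.Results.MP_0f1f76_lc.LocalSharing
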