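import Mathlib
import Pool.Agent.Q330.WF.OM

/-!
# OMV over the field with two elements: branching programs which test arithmetic (min, max) formulas over machine words

The decision version of OMV over `ZMod 2`: given an `n × n` matrix `M` and `n` pairs `(u_i, v_i)` of
vectors, is some product `u_iᵀ M v_i` equal to one? The items of the input are the matrix and the pairs;
so everything that can be computed from the matrix alone is free.

A formula (`Fml`) is built from constants, arbitrary integral functions of one item, and arbitrary
integral functions of `w` words of `c` bits, where each word is an arbitrary function of one item,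
by sums, products, maxima, minima, sign tests `pos` (with the values `0`, `1`), and gates `sym` of any
fan-in whose value is an arbitrary function of the number of positive inputs; the absolute values of
all subformulas are at most `2 ^ v`. It accepts if its value is positive. Its size is the number of
leaves (constants are free) plus the number of wires which lead to gates `sym`. In a branching program
(`Program`) every inner node tests whether a formula accepts; its size is the number of inner nodes
plus the sizes of all these formulas. A formula is a program with one inner node.

We show that random branching programs of size at most `s` with error probability at most `1 / 3` need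
`n ^ 3 ≤ 1100 w (v + log₂ n + c w) s`. Multiplication of words of `c` bits, i.e. a maximum of
parities of tests of two words, is a program with one inner node of size `2 * n ^ 2 * (n / c + 1) + 1`
whose numbers are `0` and `1`, with `w = 2` words of `c + 1` bits; so the bound is optimal up to a constant
factor for `v ≤ c`, `log₂ n ≤ c ≤ n`.

Proof. We count the functions of the pair `(u_i, v_i)` which arise when the matrix and the other pairs
are fixed (Nechiporuk's method; each of the `n ^ 2` entries of the matrix can be asked for by a pair).
Between two leaves which see the pair, the other parts of the formula act by a composition of maps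
`x + c`, `c x`, `max x c`, `min x c`, and of functions of `[0 < x]`; such a composition is a clamped
affine function or a function of a threshold test, hence given by six machine words
(`Pool.Agent.Y638.WF`). The method is that of the theorem on zero triangles
`Pool.Agent.Results.MP_62fbe0_lc.WordPrograms`.
-/

set_option autoImplicit false

namespace Pool.Agent.Results.MP_0f1f76_lc.WordPrograms

open Pool.Agent.TH697.Form (IsProb)
open Pool.Agent.TH697.Row (ApproximatesOn)
open Pool.Agent.Y638.RF.Xor (Item product)
open Pool.Agent.Y638.WF (Program exists_program)

theorem result :
    (∀ n c w v : ℕ, 32 ≤ n → 1 ≤ c → 1 ≤ w → 1 ≤ v →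
      ∀ (Ω : Type) [Fintype Ω] (μ : Ω → ℝ), IsProb μ →
        ∀ (s : ℕ)
          (B : Ω → Program (Option (Fin n)) (Item n) w (2 ^ c) (2 ^ v) (fun _ => True) s),
          ApproximatesOn μ (fun ω => (B ω).eval) (fun _ => True) (product n) →
          (n : ℝ) ^ 3 ≤ 1100 * w * (v + Real.logb 2 n + c * w) * s) ∧
    (∀ n c V : ℕ, 1 ≤ c → 1 ≤ V →
      ∃ B : Program (Option (Fin n)) (Item n) 2 (2 ^ (c + 1)) V (fun _ => True)
          (2 * n ^ 2 * (n / c + 1) + 1),
        B.nodes = 1 ∧ ∀ x, B.eval x = product n x) := by
  refine ⟨fun _ _ _ _ hn hc hw hv _ _ μ hμ s B hB =>
    Pool.Agent.Q330.WF.OM.bound_of hn hc hw hv Pool.Agent.Q330.WF.OM.asks_xor μ hμ s B hB,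
    fun n c V hc hV => ?_⟩
  obtain ⟨F, h1, h2, h3⟩ := Pool.Agent.Q330.WF.OM.upper_xor (n := n) hc V hV
  obtain ⟨B, h4, h5⟩ := exists_program F h2 (2 * n ^ 2 * (n / c + 1) + 1) (by omega)
  exact ⟨B, h4, fun x => (h5 x).trans (h3 x)⟩

end Pool.Agent.Results.MP_0f1f76_lc.WordPrograms
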